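import Pool.Agent.J6H94.AP.Stm

/-! # Project AP (helper94), module DEC (helper42) -/

set_option autoImplicit false

namespace Pool.Agent.J6H94.AP

/-- **DEC** -/
theorem dec : S_dec := by
  intro r h hg η hη
  have hr0 := hg.r0
  have hr1 := hg.r1
  set δ : ℝ → ℝ := fun s => h s - s with hδ
  have hδ0 : ∀ s, 0 ≤ δ s := fun s => by
    have h1 := hg.abs s
    have h2 := le_abs_self s
    simp only [hδ]
    linarith
  have hanti : ∀ s t, s ≤ t → δ t ≤ δ s := by
    intro s t hst
    have h1 := hg.lip t s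
    have h2 := le_abs_self (h t - h s)
    rw [abs_of_nonneg (sub_nonneg.mpr hst)] at h1
    simp only [hδ]
    linarith
  have hgrow : ∀ s, (1 + r) * δ s ≤ δ (s - r * h s) := by
    intro s
    have h1 := hg.eq1 s
    have h2 := hg.abs (s - h s / r)
    have h3 := neg_le_abs (s - h s / r)
    have h4 : r * (h s / r - s) ≤ r * h (s - h s / r) :=
      mul_le_mul_of_nonneg_left (by linarith) hr0.le
    have h5 : r * (h s / r - s) = h s - r * s := by field_simp
    simp only [hδ]
    nlinarith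
  -- the infimum
  set D : ℝ := sInf (δ '' Set.Ici 0) with hD
  have hbdd : BddBelow (δ '' Set.Ici 0) := ⟨0, by
    rintro _ ⟨s, -, rfl⟩
    exact hδ0 s⟩
  have hne : (δ '' Set.Ici 0).Nonempty := ⟨δ 0, 0, Set.mem_Ici.mpr le_rfl, rfl⟩
  have hDle : ∀ s, 0 ≤ s → D ≤ δ s := fun s hs => csInf_le hbdd ⟨s, hs, rfl⟩
  have hsmall : ∀ ε, 0 < ε → ∃ s₀, 0 ≤ s₀ ∧ δ s₀ < D + ε := by
    intro ε hε
    obtain ⟨_, ⟨s, hs, rfl⟩, h2⟩ := exists_lt_of_csInf_lt hne (show sInf (δ '' Set.Ici 0) < D + ε by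
      rw [← hD]; linarith)
    exact ⟨s, hs, h2⟩
  have hD0 : D ≤ 0 := by
    refine le_of_forall_pos_le_add (fun ε hε => ?_)
    obtain ⟨s₀, hs₀, h1⟩ := hsmall (r * ε) (by positivity)
    have hh0 := hg.pos 0
    have h1r : 0 < 1 - r := by linarith
    set s : ℝ := (s₀ + r * h 0) / (1 - r) with hs
    have hs0 : 0 ≤ s := by positivity
    have hseq : (1 - r) * s = s₀ + r * h 0 := by
      rw [hs]; field_simp
    have hhs : h s ≤ h 0 + s := by
      have h2 := hg.lip s 0
      have h3 := le_abs_self (h s - h 0)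
      rw [sub_zero, abs_of_nonneg hs0] at h2
      linarith
    have hge : s₀ ≤ s - r * h s := by nlinarith
    have h4 := hanti _ _ hge
    have h5 := hgrow s
    have h6 := hDle s hs0
    have h7 : (1 + r) * D ≤ (1 + r) * δ s := mul_le_mul_of_nonneg_left h6 (by linarith)
    have h8 : r * D < r * ε := by linarith
    have h9 : D < ε := lt_of_mul_lt_mul_left h8 hr0.le
    linarith
  -- the end
  obtain ⟨s₁, hs₁, h1⟩ := hsmall (min (η / 4) 1) (by positivity)
  refine ⟨max s₁ 1, fun s hs => ?_⟩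
  have e1 : s₁ ≤ s := (le_max_left _ _).trans hs
  have e2 : 1 ≤ s := (le_max_right _ _).trans hs
  have e3 : δ s ≤ min (η / 4) 1 := by
    have := hanti _ _ e1
    linarith
  have e4 : δ s ≤ η / 4 := e3.trans (min_le_left _ _)
  have e5 : δ s ≤ 1 := e3.trans (min_le_right _ _)
  have e6 := hδ0 s
  have e7 : h s ^ 2 - s ^ 2 = δ s * (2 * s + δ s) := by
    simp only [hδ]; ring
  rw [e7]
  have e8 : δ s * (2 * s + δ s) ≤ δ s * (3 * s) := mul_le_mul_of_nonneg_left (by linarith) e6
  have e9 : δ s * (3 * s) ≤ η / 4 * (3 * s) := mul_le_mul_of_nonneg_right e4 (by linarith)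
  nlinarith

end Pool.Agent.J6H94.AP
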